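import Mathlib
import Pool.Agent.W616.UC3

namespace Pool.Agent.Results.MP_dbcba7_co.ThreeTiles

open Finset

/-- The translates `(R × {0}) + v` and `({0} × R) + v`, `v` in the torus `ZMod n × ZMod n`. -/
def tiles (n : ℕ) [NeZero n] (R : Finset (ZMod n)) : Finset (Finset (ZMod n × ZMod n)) :=
  (univ.image fun v : ZMod n × ZMod n => R.image fun r => (r + v.1, v.2)) ∪
    (univ.image fun v : ZMod n × ZMod n => R.image fun r => (v.1, r + v.2))

/-- The family of all unions of nonempty collections of tiles. -/
def family (n : ℕ) [NeZero n] (R : Finset (ZMod n)) : Finset (Finset (ZMod n × ZMod n)) :=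
  ((tiles n R).powerset.filter fun T => T.Nonempty).image fun T => T.sup id

variable {n : ℕ} [NeZero n] {R : Finset (ZMod n)}

theorem mem_family {X : Finset (ZMod n × ZMod n)} :
    X ∈ family n R ↔ ∃ T ⊆ tiles n R, T.Nonempty ∧ T.sup id = X := by
  simp only [family, mem_image, mem_filter, mem_powerset, and_assoc]

theorem tiles_add {e : Finset (ZMod n × ZMod n)} (he : e ∈ tiles n R) (w : ZMod n × ZMod n) :
    e.image (fun x => x + w) ∈ tiles n R := by
  simp only [tiles, mem_union, mem_image, mem_univ, true_and] at he ⊢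
  rcases he with ⟨v, rfl⟩ | ⟨v, rfl⟩
  · left
    refine ⟨v + w, ?_⟩
    rw [image_image]
    refine image_congr fun r _ => ?_
    simp only [Function.comp, Prod.fst_add, Prod.snd_add]
    ext <;> simp [add_assoc]
  · right
    refine ⟨v + w, ?_⟩
    rw [image_image]
    refine image_congr fun r _ => ?_
    simp only [Function.comp, Prod.fst_add, Prod.snd_add]
    ext <;> simp [add_assoc]

theorem family_add {X : Finset (ZMod n × ZMod n)} (hX : X ∈ family n R)
    (w : ZMod n × ZMod n) : X.image (fun x => x + w) ∈ family n R := by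
  rw [mem_family] at hX ⊢
  obtain ⟨T, hT, hne, rfl⟩ := hX
  refine ⟨T.image fun e => e.image fun x => x + w, ?_, hne.image _, ?_⟩
  · intro e he
    rw [mem_image] at he
    obtain ⟨e', he', rfl⟩ := he
    exact tiles_add (hT he') w
  · ext x
    simp only [mem_sup, mem_image, id]
    constructor
    · rintro ⟨_, ⟨e, he, rfl⟩, hx⟩
      rw [mem_image] at hx
      obtain ⟨y, hy, rfl⟩ := hx
      exact ⟨y, ⟨e, he, hy⟩, rfl⟩
    · rintro ⟨y, ⟨e, he, hy⟩, rfl⟩
      exact ⟨_, ⟨e, he, rfl⟩, mem_image_of_mem _ hy⟩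

theorem freq_le (x y : ZMod n × ZMod n) :
    ((family n R).filter fun X => x ∈ X).card ≤ ((family n R).filter fun X => y ∈ X).card := by
  refine card_le_card_of_injOn (fun X => X.image fun z => z + (y - x)) ?_ ?_
  · intro X hX
    simp only [coe_filter, Set.mem_ofPred_eq] at hX ⊢
    exact ⟨family_add hX.1 _, mem_image.mpr ⟨x, hX.2, by abel⟩⟩
  · intro X _ Y _ h
    exact image_injective (add_left_injective _) h

/-- Every point of the torus lies in at least half of the members of the family. -/
theorem result (n : ℕ) [NeZero n] (_hn : 3 ≤ n) (R : Finset (ZMod n)) (hR : R.card = 3)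
    (x : ZMod n × ZMod n) :
    (family n R).card ≤ 2 * ((family n R).filter fun X => x ∈ X).card := by
  have hRne : R.Nonempty := card_pos.mp (by omega)
  have hone : ∃ e ∈ tiles n R, e.Nonempty := by
    refine ⟨R.image fun r => (r + 0, 0), ?_, hRne.image _⟩
    simp only [tiles, mem_union, mem_image, mem_univ, true_and]
    exact Or.inl ⟨(0, 0), rfl⟩
  have hcard : ∀ e ∈ tiles n R, e.card ≤ 3 := by
    intro e he
    simp only [tiles, mem_union, mem_image, mem_univ, true_and] at he
    rcases he with ⟨v, rfl⟩ | ⟨v, rfl⟩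
    · exact card_image_le.trans hR.le
    · exact card_image_le.trans hR.le
  have hunion : ∀ X ∈ family n R, ∀ Y ∈ family n R, X ∪ Y ∈ family n R := by
    intro X hX Y hY
    rw [mem_family] at hX hY ⊢
    obtain ⟨T, hT, hTn, rfl⟩ := hX
    obtain ⟨T', hT', -, rfl⟩ := hY
    exact ⟨T ∪ T', union_subset hT hT', hTn.mono subset_union_left, sup_union⟩
  have hmem : ∀ e ∈ tiles n R, e ∈ family n R := by
    intro e he
    rw [mem_family]
    exact ⟨{e}, singleton_subset_iff.mpr he, singleton_nonempty _, by simp⟩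
  obtain ⟨e, -, y, -, hy⟩ := Pool.Agent.W616.UC3.exists_abundant
    (H := tiles n R) (F := family n R)
    ⟨hunion, fun X hX e he => hunion X hX e (hmem e he), fun X hX e _ z _ hz _ => by
      rw [mem_family] at hX
      obtain ⟨T, hT, -, rfl⟩ := hX
      rw [mem_sup] at hz
      obtain ⟨g, hg, hzg⟩ := hz
      exact ⟨g, hT hg, hzg, le_sup (f := id) hg⟩⟩ hcard hone
  exact hy.trans (Nat.mul_le_mul_left 2 (freq_le y x))

end Pool.Agent.Results.MP_dbcba7_co.ThreeTiles
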